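import Pool.Agent.TDV.Stmts

/-!
# Squad TDV (MP_917879_lc): module CST (helper10)
-/

set_option autoImplicit false

noncomputable section

namespace Pool.Agent.TDV.H10

open Pool.Agent.Helper25TD Pool.Agent.TDV

/-! ### initial segments -/

theorem len_pre (x : ℕ → Bool) (n : ℕ) : (pre x n).length = n := by simp [pre]

theorem getD_pre (x : ℕ → Bool) {n i : ℕ} (h : i < n) : (pre x n).getD i false = x i := by
  simp [pre, h]

theorem pre_succ (x : ℕ → Bool) (n : ℕ) : pre x (n + 1) = pre x n ++ [x n] := by
  simp [pre, List.range_succ]

theorem pre_ext {x y : ℕ → Bool} {n : ℕ} (h : ∀ i < n, x i = y i) : pre x n = pre y n := by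
  unfold pre
  exact List.map_congr_left fun i hi => h i (List.mem_range.1 hi)

theorem take_pre (x : ℕ → Bool) (m n : ℕ) : (pre x n).take m = pre x (min m n) := by
  unfold pre
  rw [← List.map_take, List.take_range]

theorem eq_pre {s : List Bool} {x : ℕ → Bool} (h : ∀ i < s.length, x i = s.getD i false) :
    pre x s.length = s := by
  apply List.ext_getElem
  · rw [len_pre]
  · intro i h1 h2
    have h3 := h i h2
    have h4 := getD_pre x (n := s.length) (i := i) h2
    rw [List.getD_eq_getElem _ _ h1] at h4
    rw [List.getD_eq_getElem _ _ h2] at h3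
    rw [h4, h3]

/-! ### the step -/

/-- `y` extends `s` and has `z` at the even positions -/
def Gd (z : ℕ → Bool) (s : List Bool) (y : ℕ → Bool) : Prop :=
  (∀ n, y (2 * n) = z n) ∧ pre y s.length = s

/-- the answer can be forced to be positive -/
def Yes (z : ℕ → Bool) (q : List Bool × List Bool) : Prop := ∃ y, Gd z q.1 y ∧ Ask q.2 y

open Classical in
/-- the witness -/
def wit (z : ℕ → Bool) (q : List Bool × List Bool) : ℕ → Bool :=
  if h : Yes z q then h.choose else if h : ∃ y, Gd z q.1 y then h.choose else fun _ => false

open Classical in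
/-- the number `M` -/
def mm (z : ℕ → Bool) (q : List Bool × List Bool) : ℕ := sInf {M | Pd q.2 (pre (wit z q) M) = true}

open Classical in
/-- the new length before the coding bit -/
def ln (z : ℕ → Bool) (q : List Bool × List Bool) : ℕ :=
  if Yes z q then ev (max q.1.length (mm z q)) else q.1.length

open Classical in
/-- one step -/
def step (z : ℕ → Bool) (q : List Bool × List Bool) (b : Bool) : List Bool × List Bool :=
  (pre (wit z q) (ln z q) ++ [z (ln z q / 2), b], q.2 ++ [decide (Yes z q)])

/-- invariant of the states -/
def Inv (z : ℕ → Bool) (q : List Bool × List Bool) : Prop :=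
  q.1.length % 2 = 0 ∧ ∃ y, Gd z q.1 y

theorem ev_spec (n : ℕ) : n ≤ ev n ∧ ev n % 2 = 0 := by
  unfold ev
  omega

section
variable {z : ℕ → Bool} {q : List Bool × List Bool}

theorem wit_gd (h : Inv z q) : Gd z q.1 (wit z q) := by
  unfold wit
  split_ifs with h1 h2
  · exact h1.choose_spec.1
  · exact h2.choose_spec
  · exact absurd h.2 h2

theorem wit_ask (h : Yes z q) : Ask q.2 (wit z q) := by
  unfold wit
  rw [dif_pos h]
  exact h.choose_spec.2

theorem mm_spec (hp : PdsStmt) (h : Yes z q) : Pd q.2 (pre (wit z q) (mm z q)) = true := by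
  have h1 := (hp.2 q.2 (wit z q)).1 (wit_ask h)
  exact Nat.sInf_mem (s := {M | Pd q.2 (pre (wit z q) M) = true}) h1

theorem mm_min {M : ℕ} (h : M < mm z q) : Pd q.2 (pre (wit z q) M) = false := by
  have := Nat.notMem_of_lt_sInf h
  simpa using this

theorem ln_even (h : Inv z q) : ln z q % 2 = 0 := by
  unfold ln
  split_ifs
  · exact (ev_spec _).2
  · exact h.1

theorem ln_le : q.1.length ≤ ln z q := by
  unfold ln
  split_ifs
  · exact (le_max_left _ _).trans (ev_spec _).1
  · exact le_rfl

theorem mm_le (h : Yes z q) : mm z q ≤ ln z q := by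
  unfold ln
  rw [if_pos h]
  exact (le_max_right _ _).trans (ev_spec _).1

theorem step_len (b : Bool) : (step z q b).1.length = ln z q + 2 := by
  show (pre (wit z q) (ln z q) ++ [z (ln z q / 2), b]).length = _
  rw [List.length_append, len_pre]
  rfl

theorem step_getD_lt (b : Bool) {i : ℕ} (h : i < ln z q) :
    (step z q b).1.getD i false = wit z q i := by
  show (pre (wit z q) (ln z q) ++ [z (ln z q / 2), b]).getD i false = _
  rw [List.getD_append _ _ _ _ (by rw [len_pre]; exact h), getD_pre _ h]

theorem step_getD_0 (b : Bool) : (step z q b).1.getD (ln z q) false = z (ln z q / 2) := by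
  show (pre (wit z q) (ln z q) ++ [z (ln z q / 2), b]).getD (ln z q) false = _
  rw [List.getD_append_right _ _ _ _ (by rw [len_pre]), len_pre]
  simp

theorem step_getD_1 (b : Bool) : (step z q b).1.getD (ln z q + 1) false = b := by
  show (pre (wit z q) (ln z q) ++ [z (ln z q / 2), b]).getD (ln z q + 1) false = _
  rw [List.getD_append_right _ _ _ _ (by rw [len_pre]; omega), len_pre]
  simp

theorem step_inv (h : Inv z q) (b : Bool) : Inv z (step z q b) := by
  have he := ln_even h
  refine ⟨by rw [step_len]; omega, fun i => if i < ln z q + 2 then (step z q b).1.getD i false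
    else if i % 2 = 0 then z (i / 2) else false, ?_, ?_⟩
  · intro n
    have h2 : (2 * n) % 2 = 0 := by omega
    have h3 : 2 * n / 2 = n := by omega
    show (if 2 * n < ln z q + 2 then (step z q b).1.getD (2 * n) false
      else if (2 * n) % 2 = 0 then z (2 * n / 2) else false) = z n
    rw [if_pos h2, h3]
    split_ifs with h1
    · rcases lt_or_ge (2 * n) (ln z q) with h4 | h4
      · rw [step_getD_lt b h4]
        exact (wit_gd h).1 n
      · have h5 : 2 * n = ln z q := by omega
        rw [h5, step_getD_0]
        congr 1
        omega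
    · rfl
  · apply eq_pre
    intro i hi
    rw [step_len] at hi
    show (if i < ln z q + 2 then (step z q b).1.getD i false
      else if i % 2 = 0 then z (i / 2) else false) = _
    rw [if_pos hi]

theorem step_ext (h : Inv z q) (b : Bool) {i : ℕ} (hi : i < q.1.length) :
    (step z q b).1.getD i false = q.1.getD i false := by
  rw [step_getD_lt b (lt_of_lt_of_le hi ln_le)]
  have h1 := (wit_gd h).2
  have h2 := getD_pre (wit z q) hi
  rw [h1] at h2
  exact h2.symm

end

/-! ### the sequence of states -/

/-- the states -/
def S (z w : ℕ → Bool) : ℕ → List Bool × List Bool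
  | 0 => ([], [])
  | n + 1 => step z (S z w n) (w n)

open Classical in
/-- the answers -/
def dd (z : ℕ → Bool) (p : List Bool) : Bool := decide (Yes z (p.foldl (step z) ([], [])))

theorem S_eq (z w : ℕ → Bool) (n : ℕ) : S z w n = (pre w n).foldl (step z) ([], []) := by
  induction n with
  | zero => rfl
  | succ n ih =>
    rw [pre_succ, List.foldl_append, ← ih]
    rfl

theorem S_inv (z w : ℕ → Bool) (n : ℕ) : Inv z (S z w n) := by
  induction n with
  | zero =>
    refine ⟨rfl, fun i => if i % 2 = 0 then z (i / 2) else false, fun n => ?_, rfl⟩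
    have h2 : (2 * n) % 2 = 0 := by omega
    have h3 : 2 * n / 2 = n := by omega
    show (if (2 * n) % 2 = 0 then z (2 * n / 2) else false) = z n
    rw [if_pos h2, h3]
  | succ n ih => exact step_inv ih _

theorem S_len (z w : ℕ → Bool) (n : ℕ) : 2 * n ≤ (S z w n).1.length := by
  induction n with
  | zero => exact Nat.zero_le _
  | succ n ih =>
    show _ ≤ (step z (S z w n) (w n)).1.length
    rw [step_len]
    have := ln_le (z := z) (q := S z w n)
    omega

theorem S_mono (z w : ℕ → Bool) {n m : ℕ} (h : n ≤ m) :
    (S z w n).1.length ≤ (S z w m).1.length ∧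
      ∀ i < (S z w n).1.length, (S z w m).1.getD i false = (S z w n).1.getD i false := by
  induction m, h using Nat.le_induction with
  | base => exact ⟨le_rfl, fun _ _ => rfl⟩
  | succ m hm ih =>
    have h1 : (S z w m).1.length ≤ (S z w (m + 1)).1.length := by
      show _ ≤ (step z (S z w m) (w m)).1.length
      rw [step_len]
      have := ln_le (z := z) (q := S z w m)
      omega
    refine ⟨ih.1.trans h1, fun i hi => ?_⟩
    rw [← ih.2 i hi]
    exact step_ext (S_inv z w m) _ (lt_of_lt_of_le hi ih.1)

/-- the limit -/
def yy (z w : ℕ → Bool) : ℕ → Bool := fun i => (S z w (i + 1)).1.getD i false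

theorem yy_eq (z w : ℕ → Bool) (n : ℕ) {i : ℕ} (hi : i < (S z w n).1.length) :
    yy z w i = (S z w n).1.getD i false := by
  unfold yy
  have h1 : i < (S z w (i + 1)).1.length := by
    have := S_len z w (i + 1)
    omega
  rcases le_total n (i + 1) with h | h
  · exact (S_mono z w h).2 i hi
  · exact ((S_mono z w h).2 i h1).symm

theorem yy_gd (z w : ℕ → Bool) (n : ℕ) : Gd z (S z w n).1 (yy z w) := by
  refine ⟨fun k => ?_, eq_pre fun i hi => yy_eq z w n hi⟩
  obtain ⟨_, y, h1, h2⟩ := S_inv z w (2 * k + 1)
  have h3 : 2 * k < (S z w (2 * k + 1)).1.length := by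
    have := S_len z w (2 * k + 1)
    omega
  rw [yy_eq z w (2 * k + 1) h3, ← h1 k, ← getD_pre y h3, h2]

/-- the limit agrees with the witness -/
theorem yy_wit (z w : ℕ → Bool) (n : ℕ) {i : ℕ} (hi : i < ln z (S z w n)) :
    yy z w i = wit z (S z w n) i := by
  have h1 : i < (S z w (n + 1)).1.length := by
    show i < (step z (S z w n) (w n)).1.length
    rw [step_len]
    omega
  rw [yy_eq z w (n + 1) h1]
  exact step_getD_lt _ hi

theorem S_snd (z w : ℕ → Bool) (n : ℕ) : (S z w (n + 1)).2 = (S z w n).2 ++ [dd z (pre w n)] := by
  show (S z w n).2 ++ [_] = _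
  unfold dd
  rw [← S_eq]

theorem dd_iff (z w : ℕ → Bool) (n : ℕ) : dd z (pre w n) = true ↔ Yes z (S z w n) := by
  classical
  unfold dd
  rw [← S_eq]
  exact decide_eq_true_iff

/-- the answers for the limit -/
theorem main (hk : KspStmt) (hp : PdsStmt) (z w : ℕ → Bool) (n : ℕ) :
    pre (K (yy z w)) n = (S z w n).2 ∧ K (yy z w) n = dd z (pre w n) := by
  have key : ∀ n, pre (K (yy z w)) n = (S z w n).2 → K (yy z w) n = dd z (pre w n) := by
    intro n hn
    rw [Bool.eq_iff_iff, hk.2.1, dd_iff, hn]
    constructor
    · intro h
      exact ⟨yy z w, yy_gd z w n, h⟩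
    · intro h
      refine (hp.2 _ _).2 ⟨mm z (S z w n), ?_⟩
      have h1 := mm_spec hp h
      rw [pre_ext (y := wit z (S z w n)) fun i hi =>
        yy_wit z w n (lt_of_lt_of_le hi (mm_le h))]
      exact h1
  have h1 : ∀ n, pre (K (yy z w)) n = (S z w n).2 := by
    intro n
    induction n with
    | zero => rfl
    | succ n ih => rw [pre_succ, S_snd, ih, key n ih]
  exact ⟨h1 n, key n (h1 n)⟩

/-! ### decoding -/

theorem find_eq (P : ℕ → Bool) (N m : ℕ) (hm : ∀ M < m, P M = false) (h : m ≤ N → P m = true) :
    (m ≤ N ∧ (List.range (N + 1)).findIdx P = m) ∨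
      (N < m ∧ N < (List.range (N + 1)).findIdx P) := by
  rcases le_or_gt m N with h1 | h1
  · left
    refine ⟨h1, ?_⟩
    rw [List.findIdx_eq (by rw [List.length_range]; omega)]
    refine ⟨?_, fun j hj => ?_⟩
    · rw [List.getElem_range]
      exact h h1
    · rw [List.getElem_range]
      exact hm j hj
  · right
    refine ⟨h1, ?_⟩
    have h2 : (List.range (N + 1)).findIdx P = (List.range (N + 1)).length := by
      rw [List.findIdx_eq_length]
      intro x hx
      rw [List.mem_range] at hx
      exact hm x (by omega)
    rw [h2, List.length_range]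
    omega

theorem dl_eq (hk : KspStmt) (hp : PdsStmt) (z w : ℕ → Bool) (n N i : ℕ) (hi : i ≤ n + 1) :
    (dl (pre (K (yy z w)) (n + 1)) (pre (yy z w) N) i = some (S z w i).1.length ∨
      dl (pre (K (yy z w)) (n + 1)) (pre (yy z w) N) i = none) ∧
    ((S z w i).1.length ≤ N →
      dl (pre (K (yy z w)) (n + 1)) (pre (yy z w) N) i = some (S z w i).1.length) := by
  induction i with
  | zero => exact ⟨Or.inl rfl, fun _ => rfl⟩
  | succ i ih =>
    obtain ⟨ih1, ih2⟩ := ih (by omega)
    have hlen : (S z w (i + 1)).1.length = ln z (S z w i) + 2 := step_len _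
    -- the step from `some`
    have hK : (pre (K (yy z w)) (n + 1)).getD i false = dd z (pre w i) := by
      rw [getD_pre _ (by omega)]
      exact (main hk hp z w i).2
    have ht : (pre (K (yy z w)) (n + 1)).take i = (S z w i).2 := by
      rw [take_pre, min_eq_left (by omega)]
      exact (main hk hp z w i).1
    have hs : dl (pre (K (yy z w)) (n + 1)) (pre (yy z w) N) i = some (S z w i).1.length →
        (dl (pre (K (yy z w)) (n + 1)) (pre (yy z w) N) (i + 1) = some (S z w (i + 1)).1.length ∨
          (N < (S z w (i + 1)).1.length ∧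
            dl (pre (K (yy z w)) (n + 1)) (pre (yy z w) N) (i + 1) = none)) := by
      intro h
      have e : dl (pre (K (yy z w)) (n + 1)) (pre (yy z w) N) (i + 1) =
          (dl (pre (K (yy z w)) (n + 1)) (pre (yy z w) N) i).bind fun L =>
            if (pre (K (yy z w)) (n + 1)).getD i false then
            (if (List.range ((pre (yy z w) N).length + 1)).findIdx (fun M =>
                Pd ((pre (K (yy z w)) (n + 1)).take i) ((pre (yy z w) N).take M)) ≤
                (pre (yy z w) N).length then
              some (ev (max L ((List.range ((pre (yy z w) N).length + 1)).findIdx fun M =>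
                Pd ((pre (K (yy z w)) (n + 1)).take i) ((pre (yy z w) N).take M))) + 2)
            else none) else some (L + 2) := rfl
      rw [e, h, Option.bind_some, hK, ht, len_pre, hlen]
      by_cases hY : Yes z (S z w i)
      · have hd : dd z (pre w i) = true := (dd_iff z w i).2 hY
        rw [if_pos hd]
        have hln : ln z (S z w i) = ev (max (S z w i).1.length (mm z (S z w i))) := by
          unfold ln
          rw [if_pos hY]
        have hmle := mm_le hY
        have hpre : ∀ M ≤ mm z (S z w i), M ≤ N →
            (pre (yy z w) N).take M = pre (wit z (S z w i)) M := by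
          intro M hM hMN
          rw [take_pre, min_eq_left hMN]
          exact pre_ext fun j hj => yy_wit z w i (by omega)
        set P : ℕ → Bool := fun M => Pd (S z w i).2 ((pre (yy z w) N).take M) with hPdef
        have hPm : mm z (S z w i) ≤ N → P (mm z (S z w i)) = true := by
          intro h1
          show Pd (S z w i).2 ((pre (yy z w) N).take (mm z (S z w i))) = true
          rw [hpre _ le_rfl h1]
          exact mm_spec hp hY
        by_cases h1 : mm z (S z w i) ≤ N
        · have h2 : ∀ M < mm z (S z w i), P M = false := by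
            intro M hM
            show Pd (S z w i).2 ((pre (yy z w) N).take M) = false
            rw [hpre _ hM.le (by omega)]
            exact mm_min hM
          rcases find_eq P N _ h2 hPm with ⟨_, h3⟩ | ⟨h3, _⟩
          · left
            rw [h3, if_pos h1, hln]
          · omega
        · right
          refine ⟨by omega, ?_⟩
          have h2 : (List.range (N + 1)).findIdx P = (List.range (N + 1)).length := by
            rw [List.findIdx_eq_length]
            intro M hM
            rw [List.mem_range] at hM
            show Pd (S z w i).2 ((pre (yy z w) N).take M) = false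
            rw [hpre _ (by omega) (by omega)]
            exact mm_min (by omega)
          rw [if_neg]
          rw [h2, List.length_range]
          omega
      · have hd : dd z (pre w i) = false := by
          rw [Bool.eq_false_iff]
          intro h1
          exact hY ((dd_iff z w i).1 h1)
        left
        rw [hd]
        have hln : ln z (S z w i) = (S z w i).1.length := by
          unfold ln
          rw [if_neg hY]
        rw [hln]
        rfl
    refine ⟨?_, ?_⟩
    · rcases ih1 with h | h
      · rcases hs h with h1 | ⟨_, h1⟩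
        · exact Or.inl h1
        · exact Or.inr h1
      · right
        show (dl (pre (K (yy z w)) (n + 1)) (pre (yy z w) N) i).bind _ = none
        rw [h]
        rfl
    · intro h1
      have h2 : (S z w i).1.length ≤ N := by
        have := ln_le (z := z) (q := S z w i)
        omega
      rcases hs (ih2 h2) with h3 | ⟨h3, _⟩
      · exact h3
      · omega

/-- CST. -/
theorem cst (hk : KspStmt) (hp : PdsStmt) : CstStmt := by
  intro z
  refine ⟨dd z, fun w => ⟨yy z w, (yy_gd z w 0).1, fun n => (main hk hp z w n).2, fun n => ?_⟩⟩
  have hlen : (S z w (n + 1)).1.length = ln z (S z w n) + 2 := step_len _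
  have hbit : yy z w ((S z w (n + 1)).1.length - 1) = w n := by
    rw [yy_eq z w (n + 1) (by omega)]
    have e : (S z w (n + 1)).1.length - 1 = ln z (S z w n) + 1 := by omega
    rw [e]
    exact step_getD_1 _
  constructor
  · intro hw
    refine ⟨(S z w (n + 1)).1.length, ?_⟩
    have h1 := (dl_eq hk hp z w n _ (n + 1) le_rfl).2 le_rfl
    unfold db
    rw [h1]
    show (decide (_ ≤ (pre (yy z w) _).length) && (pre (yy z w) _).getD _ false) = true
    rw [len_pre, getD_pre _ (by omega), hbit, hw]
    simp
  · rintro ⟨N, hN⟩
    unfold db at hN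
    rcases (dl_eq hk hp z w n N (n + 1) le_rfl).1 with h1 | h1
    · rw [h1] at hN
      change (decide (_ ≤ (pre (yy z w) _).length) && (pre (yy z w) _).getD _ false) = true at hN
      rw [Bool.and_eq_true, decide_eq_true_eq, len_pre] at hN
      obtain ⟨h2, h3⟩ := hN
      rw [getD_pre _ (by omega), hbit] at h3
      exact h3
    · rw [h1] at hN
      exact absurd hN (by simp)

end Pool.Agent.TDV.H10
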